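import Pool.Agent.helper35.MR.SpecA

/-!
# Project mr: module MRG (merging)
-/

set_option autoImplicit false

open Finset

namespace Pool.Agent.helper35.MR

open Pool.Agent.RRank

lemma MRG_ev_swap12 {ι K : Type} [Fintype ι] [Field K] (M : ι → ι → ι → K) (u v w : ι → K) :
    ev3 (fun i j k => M j i k) u v w = ev3 M v u w := by
  unfold ev3
  rw [Finset.sum_comm]
  refine Finset.sum_congr rfl fun i _ => Finset.sum_congr rfl fun j _ =>
    Finset.sum_congr rfl fun k _ => ?_
  ring

lemma MRG_ev_swap13 {ι K : Type} [Fintype ι] [Field K] (M : ι → ι → ι → K) (u v w : ι → K) :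
    ev3 (fun i j k => M k j i) u v w = ev3 M w v u := by
  unfold ev3
  have h1 : ∀ i : ι, ∑ j, ∑ k, M k j i * (u i * v j * w k) =
      ∑ k, ∑ j, M k j i * (u i * v j * w k) := fun i => Finset.sum_comm
  rw [Finset.sum_congr rfl fun i _ => h1 i, Finset.sum_comm]
  refine Finset.sum_congr rfl fun i _ => ?_
  rw [Finset.sum_comm]
  refine Finset.sum_congr rfl fun j _ =>
    Finset.sum_congr rfl fun k _ => ?_
  ring

lemma MRG_full_swap12 {ι K : Type} [Fintype ι] [Field K] {M : ι → ι → ι → K} (h : Full3 M) :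
    Full3 (fun i j k => M j i k) := by
  intro U V W hd
  obtain ⟨v, hv, u, hu, w, hw, h1⟩ := h V U W (by omega)
  refine ⟨u, hu, v, hv, w, hw, ?_⟩
  rw [MRG_ev_swap12]
  exact h1

lemma MRG_full_swap13 {ι K : Type} [Fintype ι] [Field K] {M : ι → ι → ι → K} (h : Full3 M) :
    Full3 (fun i j k => M k j i) := by
  intro U V W hd
  obtain ⟨w, hw, v, hv, u, hu, h1⟩ := h W V U (by omega)
  refine ⟨u, hu, v, hv, w, hw, ?_⟩
  rw [MRG_ev_swap13]
  exact h1

/-- addition of the coordinates `m`, `m + 1` -/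
def MRG_pi (K : Type) [Field K] {l : ℕ} (m : Fin l) : (Fin (l + 1) → K) →ₗ[K] (Fin l → K) where
  toFun u i := ∑ j, if m.predAbove j = i then u j else 0
  map_add' u v := by
    funext i
    rw [Pi.add_apply, ← Finset.sum_add_distrib]
    refine Finset.sum_congr rfl fun j _ => ?_
    split_ifs <;> simp
  map_smul' c u := by
    funext i
    rw [Pi.smul_apply, smul_eq_mul, Finset.mul_sum]
    refine Finset.sum_congr rfl fun j _ => ?_
    split_ifs <;> simp

/-- extension by zero -/
def MRG_io (K : Type) [Field K] {l : ℕ} (p : Fin (l + 1)) : (Fin l → K) →ₗ[K] (Fin (l + 1) → K) where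
  toFun v := p.insertNth (α := fun _ => K) 0 v
  map_add' v w := by
    funext i
    refine Fin.succAboveCases p ?_ (fun j => ?_) i
    · simp
    · simp
  map_smul' c v := by
    funext i
    refine Fin.succAboveCases p ?_ (fun j => ?_) i
    · simp
    · simp

lemma MRG_io_self {K : Type} [Field K] {l : ℕ} (p : Fin (l + 1)) (v : Fin l → K) :
    MRG_io K p v p = 0 := by
  simp [MRG_io]

lemma MRG_io_succAbove {K : Type} [Field K] {l : ℕ} (p : Fin (l + 1)) (v : Fin l → K) (j : Fin l) :
    MRG_io K p v (p.succAbove j) = v j := by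
  simp [MRG_io]

lemma MRG_pi_sum {K : Type} [Field K] {l : ℕ} (m : Fin l) (u : Fin (l + 1) → K) (f : Fin l → K) :
    ∑ i, f i * MRG_pi K m u i = ∑ j, f (m.predAbove j) * u j := by
  have h1 : ∀ i, f i * MRG_pi K m u i = ∑ j, if m.predAbove j = i then f i * u j else 0 := by
    intro i
    show f i * (∑ j, if m.predAbove j = i then u j else 0) = _
    rw [Finset.mul_sum]
    refine Finset.sum_congr rfl fun j _ => ?_
    split_ifs <;> simp
  rw [Finset.sum_congr rfl fun i _ => h1 i, Finset.sum_comm]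
  refine Finset.sum_congr rfl fun j _ => ?_
  simp

lemma MRG_ev {K : Type} [Field K] {l : ℕ} (M : Fin (l + 1) → Fin (l + 1) → Fin (l + 1) → K)
    (N : Fin l → Fin l → Fin l → K) (m : Fin l) (p q : Fin (l + 1))
    (h : ∀ i j k, N (m.predAbove i) j k = M i (p.succAbove j) (q.succAbove k))
    (u : Fin (l + 1) → K) (v w : Fin l → K) :
    ev3 N (MRG_pi K m u) v w = ev3 M u (MRG_io K p v) (MRG_io K q w) := by
  unfold ev3
  have h1 : ∀ i, ∑ j, ∑ k, N i j k * (MRG_pi K m u i * v j * w k) =
      (∑ j, ∑ k, N i j k * (v j * w k)) * MRG_pi K m u i := by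
    intro i
    rw [Finset.sum_mul]
    refine Finset.sum_congr rfl fun j _ => ?_
    rw [Finset.sum_mul]
    refine Finset.sum_congr rfl fun k _ => ?_
    ring
  rw [Finset.sum_congr rfl fun i _ => h1 i, MRG_pi_sum]
  refine Finset.sum_congr rfl fun i _ => ?_
  rw [Fin.sum_univ_succAbove _ p]
  have h2 : ∑ k, M i p k * (u i * MRG_io K p v p * MRG_io K q w k) = 0 := by
    refine Finset.sum_eq_zero fun k _ => ?_
    rw [MRG_io_self]
    ring
  rw [h2, zero_add, Finset.sum_mul]
  refine Finset.sum_congr rfl fun j _ => ?_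
  rw [Fin.sum_univ_succAbove _ q, MRG_io_self q, MRG_io_succAbove, Finset.sum_mul]
  rw [show M i (p.succAbove j) q * (u i * v j * 0) = 0 by ring, zero_add]
  refine Finset.sum_congr rfl fun k _ => ?_
  rw [MRG_io_succAbove, h]
  ring

lemma MRG_io_inj {K : Type} [Field K] {l : ℕ} (p : Fin (l + 1)) :
    Function.Injective (MRG_io K p) := by
  intro v w hvw
  funext j
  have := congrFun hvw (p.succAbove j)
  rwa [MRG_io_succAbove, MRG_io_succAbove] at this

lemma MRG_dim {K : Type} [Field K] {l : ℕ} (p : Fin (l + 1)) (U : Submodule K (Fin (l + 1) → K)) :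
    Module.finrank K U ≤ Module.finrank K (U.comap (MRG_io K p)) + 1 := by
  have h1 : Module.finrank K (U.comap (MRG_io K p)) =
      Module.finrank K ((U.comap (MRG_io K p)).map (MRG_io K p)) :=
    (LinearEquiv.finrank_eq (Submodule.equivMapOfInjective _ (MRG_io_inj p) _))
  have h2 : (U.comap (MRG_io K p)).map (MRG_io K p) = U ⊓ LinearMap.range (MRG_io K p) := by
    rw [Submodule.map_comap_eq, inf_comm]
  have h3 : Module.finrank K (LinearMap.range (MRG_io K p)) = l := by
    rw [LinearMap.finrank_range_of_inj (MRG_io_inj p)]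
    simp
  have h4 := Submodule.finrank_sup_add_finrank_inf_eq U (LinearMap.range (MRG_io K p))
  have h5 : Module.finrank K ↥(U ⊔ LinearMap.range (MRG_io K p)) ≤ l + 1 := by
    refine (Submodule.finrank_le _).trans ?_
    simp
  rw [h1, h2]
  omega

lemma MRG_ker {K : Type} [Field K] {l : ℕ} (m : Fin l) (u : Fin (l + 1) → K)
    (hu : MRG_pi K m u = 0) :
    u = u m.castSucc • (Pi.single m.castSucc 1 - Pi.single m.succ 1 : Fin (l + 1) → K) := by
  classical
  have h0 : ∀ i, ∑ j, (if m.predAbove j = i then u j else 0) = 0 := fun i => congrFun hu i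
  -- fibres of predAbove
  have hfib : ∀ j j' : Fin (l + 1), m.predAbove j = m.predAbove j' → j ≠ j' →
      (j = m.castSucc ∨ j = m.succ) := by
    intro j j' h hne
    have h1 : (m.predAbove j : ℕ) = if (j : ℕ) ≤ m then (j : ℕ) else (j : ℕ) - 1 := by
      by_cases hj : (j : ℕ) ≤ m
      · rw [Fin.predAbove_of_le_castSucc _ _ (by rw [Fin.le_def]; simpa using hj), if_pos hj]
        rfl
      · rw [Fin.predAbove_of_castSucc_lt _ _ (by rw [Fin.lt_def]; simp; omega), if_neg hj]
        simp
    have h1' : (m.predAbove j' : ℕ) = if (j' : ℕ) ≤ m then (j' : ℕ) else (j' : ℕ) - 1 := by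
      by_cases hj : (j' : ℕ) ≤ m
      · rw [Fin.predAbove_of_le_castSucc _ _ (by rw [Fin.le_def]; simpa using hj), if_pos hj]
        rfl
      · rw [Fin.predAbove_of_castSucc_lt _ _ (by rw [Fin.lt_def]; simp; omega), if_neg hj]
        simp
    have h2 := congrArg (fun x : Fin l => (x : ℕ)) h
    simp only [h1, h1'] at h2
    have h3 : (j : ℕ) ≠ j' := fun h => hne (Fin.ext h)
    rw [Fin.ext_iff, Fin.ext_iff, Fin.val_castSucc, Fin.val_succ]
    split_ifs at h2 <;> omega
  have hc : m.predAbove m.castSucc = m := by simp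
  have hs : m.predAbove m.succ = m := by simp
  have hne : m.castSucc ≠ m.succ := by
    intro h
    have := congrArg (fun x : Fin (l + 1) => (x : ℕ)) h
    simp at this
  funext j
  by_cases hjc : j = m.castSucc
  · subst hjc
    simp [hne]
  · by_cases hjs : j = m.succ
    · subst hjs
      have h1 := h0 m
      have h2 : ∑ j, (if m.predAbove j = m then u j else 0) = u m.castSucc + u m.succ := by
        rw [← Finset.sum_pair hne]
        symm
        rw [← Finset.sum_subset (Finset.subset_univ {m.castSucc, m.succ})]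
        · refine Finset.sum_congr rfl fun x hx => ?_
          rw [Finset.mem_insert, Finset.mem_singleton] at hx
          rcases hx with rfl | rfl
          · rw [hc, if_pos rfl]
          · rw [hs, if_pos rfl]
        · intro x _ hx
          rw [Finset.mem_insert, Finset.mem_singleton, not_or] at hx
          rw [if_neg]
          intro h
          exact (hfib x m.castSucc (h.trans hc.symm) hx.1).elim hx.1 hx.2
      rw [h2] at h1
      have h3 : u m.succ = - u m.castSucc := by linear_combination h1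
      simp [h3, hne.symm]
    · have h1 := h0 (m.predAbove j)
      have h2 : ∑ j', (if m.predAbove j' = m.predAbove j then u j' else 0) = u j := by
        rw [Finset.sum_eq_single j]
        · rw [if_pos rfl]
        · intro x _ hx
          rw [if_neg]
          intro h
          exact (hfib j x h.symm (Ne.symm hx)).elim hjc hjs
        · intro h
          exact absurd (Finset.mem_univ j) h
      rw [h2] at h1
      rw [h1]
      simp [hjc, hjs]

lemma MRG_core {K : Type} [Field K] {l : ℕ} (M : Fin (l + 1) → Fin (l + 1) → Fin (l + 1) → K)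
    (N : Fin l → Fin l → Fin l → K) (hN : Full3 N) (m : Fin l) (p q : Fin (l + 1))
    (h : ∀ i j k, N (m.predAbove i) j k = M i (p.succAbove j) (q.succAbove k))
    (U₁ U₂ U₃ : Submodule K (Fin (l + 1) → K))
    (hd : 2 * (l + 1) < Module.finrank K U₁ + Module.finrank K U₂ + Module.finrank K U₃)
    (hv : ∀ u ∈ U₁, ∀ v ∈ U₂, ∀ w ∈ U₃, ev3 M u v w = 0) :
    (Pi.single m.castSucc 1 - Pi.single m.succ 1 : Fin (l + 1) → K) ∈ U₁ := by
  by_contra hne
  have h1 : Module.finrank K (U₁.map (MRG_pi K m)) = Module.finrank K U₁ := by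
    have hinj : Function.Injective ((MRG_pi K m).domRestrict U₁) := by
      rw [← LinearMap.ker_eq_bot, LinearMap.ker_eq_bot']
      intro u hu
      have h2 : MRG_pi K m (u : Fin (l + 1) → K) = 0 := hu
      have h3 := MRG_ker m _ h2
      by_cases h4 : (u : Fin (l + 1) → K) m.castSucc = 0
      · rw [h4, zero_smul] at h3
        exact Subtype.ext h3
      · exfalso
        apply hne
        have h5 : (Pi.single m.castSucc 1 - Pi.single m.succ 1 : Fin (l + 1) → K) =
            ((u : Fin (l + 1) → K) m.castSucc)⁻¹ • (u : Fin (l + 1) → K) := by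
          have h6 : ((u : Fin (l + 1) → K) m.castSucc)⁻¹ • (u : Fin (l + 1) → K) =
              ((u : Fin (l + 1) → K) m.castSucc)⁻¹ • ((u : Fin (l + 1) → K) m.castSucc •
                (Pi.single m.castSucc 1 - Pi.single m.succ 1 : Fin (l + 1) → K)) :=
            congrArg _ h3
          rw [h6, smul_smul, inv_mul_cancel₀ h4, one_smul]
        rw [h5]
        exact U₁.smul_mem _ u.2
    have h2 := LinearMap.finrank_range_of_inj hinj
    rw [← h2, LinearMap.range_domRestrict]
  have h2 := MRG_dim p U₂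
  have h3 := MRG_dim q U₃
  obtain ⟨u', hu', v, hv', w, hw, h4⟩ := hN (U₁.map (MRG_pi K m)) (U₂.comap (MRG_io K p))
    (U₃.comap (MRG_io K q)) (by rw [Fintype.card_fin, h1]; omega)
  obtain ⟨u, hu, rfl⟩ := hu'
  rw [MRG_ev M N m p q h] at h4
  exact h4 (hv u hu _ hv' _ hw)

lemma MRG_cmp {x y x' y' : ℤ} (h1 : x < y ↔ x' < y') (h2 : y < x ↔ y' < x') :
    cmp x y = cmp x' y' := by
  rcases lt_trichotomy x y with h | h | h
  · rw [(cmp_eq_lt_iff x y).mpr h, (cmp_eq_lt_iff x' y').mpr (h1.mp h)]
  · have h3 : x' = y' := by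
      subst h
      have a1 : ¬ x' < y' := fun h => lt_irrefl _ (h1.mpr h)
      have a2 : ¬ y' < x' := fun h => lt_irrefl _ (h2.mpr h)
      omega
    rw [(cmp_eq_eq_iff x y).mpr h, (cmp_eq_eq_iff x' y').mpr h3]
  · rw [(cmp_eq_gt_iff x y).mpr h, (cmp_eq_gt_iff x' y').mpr (h2.mp h)]

lemma MRG_val_pred {l : ℕ} (m : Fin l) (j : Fin (l + 1)) :
    (m.predAbove j : ℕ) = if (j : ℕ) ≤ m then (j : ℕ) else (j : ℕ) - 1 := by
  by_cases hj : (j : ℕ) ≤ m
  · rw [Fin.predAbove_of_le_castSucc _ _ (by rw [Fin.le_def]; simpa using hj), if_pos hj]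
    rfl
  · rw [Fin.predAbove_of_castSucc_lt _ _ (by rw [Fin.lt_def]; simp; omega), if_neg hj]
    simp

lemma MRG_val_c {l : ℕ} (m j : Fin l) :
    (m.castSucc.succAbove j : ℕ) = if (j : ℕ) < m then (j : ℕ) else (j : ℕ) + 1 := by
  by_cases hj : (j : ℕ) < m
  · rw [Fin.succAbove_of_castSucc_lt _ _ (by rw [Fin.lt_def]; simpa using hj), if_pos hj]
    rfl
  · rw [Fin.succAbove_of_le_castSucc _ _ (by rw [Fin.le_def]; simp; omega), if_neg hj]
    simp

lemma MRG_val_s {l : ℕ} (m j : Fin l) :
    (m.succ.succAbove j : ℕ) = if (j : ℕ) ≤ m then (j : ℕ) else (j : ℕ) + 1 := by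
  by_cases hj : (j : ℕ) ≤ m
  · rw [Fin.succAbove_of_castSucc_lt _ _ (by rw [Fin.lt_def]; simp; omega), if_pos hj]
    rfl
  · rw [Fin.succAbove_of_le_castSucc _ _ (by rw [Fin.le_def]; simp; omega), if_neg hj]
    simp

lemma MRG_span {K : Type} [Field K] {l : ℕ} (P : Submodule K (Fin (l + 1) → K))
    (h : ∀ m : Fin l, (Pi.single m.castSucc 1 - Pi.single m.succ 1 : Fin (l + 1) → K) ∈ P)
    (u : Fin (l + 1) → K) (hu : ∑ i, u i = 0) : u ∈ P := by
  classical
  have h1 : ∀ i : Fin (l + 1), (Pi.single 0 1 - Pi.single i 1 : Fin (l + 1) → K) ∈ P := by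
    intro i
    induction i using Fin.induction with
    | zero => rw [sub_self]; exact P.zero_mem
    | succ i ih =>
      have h2 := P.add_mem ih (h i)
      rwa [sub_add_sub_cancel] at h2
  have h2 : u = - ∑ i, u i • (Pi.single 0 1 - Pi.single i 1 : Fin (l + 1) → K) := by
    have h3 : ∑ i, u i • (Pi.single 0 1 - Pi.single i 1 : Fin (l + 1) → K) =
        (∑ i, u i) • (Pi.single 0 1 : Fin (l + 1) → K) -
          ∑ i, u i • (Pi.single i 1 : Fin (l + 1) → K) := by
      rw [Finset.sum_smul, ← Finset.sum_sub_distrib]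
      refine Finset.sum_congr rfl fun i _ => ?_
      rw [smul_sub]
    have h4 : ∑ i, u i • (Pi.single i 1 : Fin (l + 1) → K) = u := by
      funext j
      rw [Finset.sum_apply]
      simp [Pi.single_apply]
    rw [h3, hu, h4, zero_smul, zero_sub, neg_neg]
  rw [h2]
  exact P.neg_mem (P.sum_mem fun i _ => P.smul_mem _ (h1 i))

theorem MRG : MRG_stmt := by
  intro K _ V hV l hN U₁ U₂ U₃ hd hv u hu
  refine ⟨MRG_span U₁ (fun m => ?_) u hu, MRG_span U₂ (fun m => ?_) u hu,
    MRG_span U₃ (fun m => ?_) u hu⟩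
  · refine MRG_core (strictM V (l + 1)) (strictM V l) hN m m.castSucc m.castSucc ?_ U₁ U₂ U₃ hd hv
    intro i j k
    unfold strictM
    rw [MRG_val_pred, MRG_val_c, MRG_val_c]
    apply hV <;> apply MRG_cmp <;> split_ifs <;> push_cast <;> omega
  · refine MRG_core (fun i j k => strictM V (l + 1) j i k) (fun i j k => strictM V l j i k)
      (MRG_full_swap12 hN) m m.succ m.castSucc ?_ U₂ U₁ U₃ (by omega) ?_
    · intro i j k
      show strictM V l j (m.predAbove i) k = strictM V (l + 1) _ i _
      unfold strictM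
      rw [MRG_val_pred, MRG_val_s, MRG_val_c]
      apply hV <;> apply MRG_cmp <;> split_ifs <;> push_cast <;> omega
    · intro v hv' u hu' w hw
      rw [MRG_ev_swap12]
      exact hv u hu' v hv' w hw
  · refine MRG_core (fun i j k => strictM V (l + 1) k j i) (fun i j k => strictM V l k j i)
      (MRG_full_swap13 hN) m m.succ m.succ ?_ U₃ U₂ U₁ (by omega) ?_
    · intro i j k
      show strictM V l k j (m.predAbove i) = strictM V (l + 1) _ _ i
      unfold strictM
      rw [MRG_val_pred, MRG_val_s, MRG_val_s]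
      apply hV <;> apply MRG_cmp <;> split_ifs <;> push_cast <;> omega
    · intro w hw v hv' u hu'
      rw [MRG_ev_swap13]
      exact hv u hu' v hv' w hw

end Pool.Agent.helper35.MR
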